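import Pool.Agent.MP_1037db_co.Q.S4
import Pool.Agent.MP_1037db_co.Q.A.S4C0
import Pool.Agent.MP_1037db_co.Q.A.S5C0
import Pool.Agent.MP_1037db_co.Q.A.S5C1
import Pool.Agent.MP_1037db_co.Q.A.S13P1
import Pool.Agent.MP_1037db_co.Q.A.S13C0
import Pool.Agent.MP_1037db_co.Q.A.S13C1
import Pool.Agent.MP_1037db_co.Q.A.S13C2
import Pool.Agent.MP_1037db_co.Q.A.S13C3
import Pool.Agent.MP_1037db_co.Q.A.S13C4
import Pool.Agent.MP_1037db_co.Q.A.S13C5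
import Pool.Agent.MP_1037db_co.Q.A.S13C6
import Pool.Agent.MP_1037db_co.Q.A.S13C7
import Pool.Agent.MP_1037db_co.Q.A.S13C8
import Pool.Agent.MP_1037db_co.Q.A.S13C9
import Pool.Agent.MP_1037db_co.Q.A.S13C10
import Pool.Agent.MP_1037db_co.Q.A.S13C11
import Pool.Agent.MP_1037db_co.Q.A.S13C12
import Pool.Agent.MP_1037db_co.Q.A.S13C13
import Pool.Agent.MP_1037db_co.Q.A.S13C14
import Pool.Agent.MP_1037db_co.Q.A.S13C15
import Pool.Agent.MP_1037db_co.Q.A.S13C16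
import Pool.Agent.MP_1037db_co.Q.A.S13C17
import Pool.Agent.MP_1037db_co.Q.A.S13C18
import Pool.Agent.MP_1037db_co.Q.A.S13C19
import Pool.Agent.MP_1037db_co.Q.A.S13C20
import Pool.Agent.MP_1037db_co.Q.A.S13C21
import Pool.Agent.MP_1037db_co.Q.A.S13C22
import Pool.Agent.MP_1037db_co.Q.A.S13C23
import Pool.Agent.MP_1037db_co.Q.A.S13C24
import Pool.Agent.MP_1037db_co.Q.A.S13C25
import Pool.Agent.MP_1037db_co.Q.A.S13C26
import Pool.Agent.MP_1037db_co.Q.A.S13C27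
import Pool.Agent.MP_1037db_co.Q.A.S13C28
import Pool.Agent.MP_1037db_co.Q.A.S13C29
import Pool.Agent.MP_1037db_co.Q.A.S13C30
import Pool.Agent.MP_1037db_co.Q.A.S20C0
import Pool.Agent.MP_1037db_co.Q.A.S20C1

namespace Pool.Agent.MP_1037db_co.Q.A

open LP PT.Ka

set_option linter.defProp false
set_option maxRecDepth 100000

noncomputable section

theorem tab4 : tab FA FB D4 R4 5 = true := by decide +kernel

theorem seg4 : Seg ⟨FA, FB, FT, 60608, 10033, 38173, geo_ok⟩ 10033 9889 0 2400 := fun _ E β ht h hb h' => by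
  letI : Geo := ⟨FA, FB, FT, 60608, 10033, 38173, geo_ok⟩
  have c : rd R4 35 = 9889 := by decide +kernel
  have g := tc_re (E := E) tab4 (ro := 10033) (C0 := 9889) (by decide +kernel) ht hb
  have s : St (E.re tab4) β 9889 H4_0 (0 * 32) _ X4_0 _ _ _ _ _ _ :=
    g.start H4_0 9889 0 (by decide +kernel) h h'
  have s : St _ β _ _ (124 * 32) _ _ _ _ _ _ _ _ := s.ru g okX4_0 p4_0_0
  have s : St _ β _ _ (194 * 32) _ _ _ _ _ _ _ _ := s.ru g okX4_0 p4_1_0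
  have s : St _ β _ _ (194 * 32) _ _ _ _ _ _ _ _ := s.rnz (i := 6208) g r4_1_13 ⟨by norm_num, c⟩
  have s : St _ β _ _ (194 * 32) _ _ _ _ _ _ _ _ := s.rnz (i := 6208) g r4_1_14 ⟨by norm_num, c⟩
  have s : St _ β _ _ (194 * 32) _ _ _ _ _ _ _ _ := s.rnz (i := 6208) g r4_2_0 ⟨by norm_num, c⟩
  have s : St _ β _ _ (194 * 32) _ _ _ _ _ _ _ _ := s.rnz (i := 6208) g r4_2_1 ⟨by norm_num, c⟩
  have s : St _ β _ _ (194 * 32) _ _ _ _ _ _ _ _ := s.rnz (i := 6208) g r4_2_2 ⟨by norm_num, c⟩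
  have s : St _ β _ _ (194 * 32) _ _ _ _ _ _ _ _ := s.rnz (i := 6208) g r4_2_3 ⟨by norm_num, c⟩
  have s : St _ β _ _ (194 * 32) _ _ _ _ _ _ _ _ := s.rnz (i := 6208) g r4_2_4 ⟨by norm_num, c⟩
  have s : St _ β _ _ (194 * 32) _ _ _ _ _ _ _ _ := s.rnz (i := 6208) g r4_2_5 ⟨by norm_num, c⟩
  have s : St _ β _ _ (194 * 32) _ _ _ _ _ _ _ _ := s.rnz (i := 6208) g r4_2_6 ⟨by norm_num, c⟩
  have s : St _ β _ _ (194 * 32) _ _ _ _ _ _ _ _ := s.rnz (i := 6208) g r4_3_0 ⟨by norm_num, c⟩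
  have s : St _ β _ _ (194 * 32) _ _ _ _ _ _ _ _ := s.rnz (i := 6208) g r4_3_1 ⟨by norm_num, c⟩
  have s : St _ β _ _ (194 * 32) _ _ _ _ _ _ _ _ := s.rnz (i := 6208) g r4_3_2 ⟨by norm_num, c⟩
  have s : St _ β _ _ (194 * 32) _ _ _ _ _ _ _ _ := s.rnz (i := 6208) g r4_3_3 ⟨by norm_num, c⟩
  have s : St _ β _ _ (194 * 32) _ _ _ _ _ _ _ _ := s.rnz (i := 6208) g r4_3_4 ⟨by norm_num, c⟩
  have s : St _ β _ _ (194 * 32) _ _ _ _ _ _ _ _ := s.rnz (i := 6208) g r4_3_5 ⟨by norm_num, c⟩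
  have s : St _ β _ _ (194 * 32) _ _ _ _ _ _ _ _ := s.rnz (i := 6208) g r4_3_6 ⟨by norm_num, c⟩
  have s : St _ β _ _ (194 * 32) _ _ _ _ _ _ _ _ := s.rnz (i := 6208) g r4_4_0 ⟨by norm_num, c⟩
  have s : St _ β _ _ (194 * 32) _ _ _ _ _ _ _ _ := s.rnz (i := 6208) g r4_4_1 ⟨by norm_num, c⟩
  exact s.out g (by decide +kernel)

theorem tab5 : tab FA FB D5 R5 8 = true := by decide +kernel

theorem seg5 : Seg ⟨FA, FB, FT, 60608, 10033, 38173, geo_ok⟩ 10033 9889 2400 3200 := fun _ E β ht h hb h' => by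
  letI : Geo := ⟨FA, FB, FT, 60608, 10033, 38173, geo_ok⟩
  have c : rd R5 35 = 9889 := by decide +kernel
  have g := tc_re (E := E) tab5 (ro := 10033) (C0 := 9889) (by decide +kernel) ht hb
  have s : St (E.re tab5) β 9889 H5_0 (0 * 32) _ X5_0 _ _ _ _ _ _ :=
    g.start H5_0 9889 1 (by decide +kernel) h h'
  have s : St _ β _ _ (133 * 32) _ _ _ _ _ _ _ _ := s.ru g okX5_0 p5_0_0
  have s : St _ β _ _ (233 * 32) _ _ _ _ _ _ _ _ := s.ru g okX5_0 p5_1_0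
  have s : St _ β _ _ (316 * 32) _ _ _ _ _ _ _ _ := s.ru g okX5_0 p5_2_0
  have s : St _ β _ _ (370 * 32) _ _ _ _ _ _ _ _ := s.ru g okX5_0 p5_3_0
  have s : St _ β _ _ (409 * 32) _ _ _ _ _ _ _ _ := s.ru g okX5_0 p5_4_0
  have s : St _ β _ _ (436 * 32) _ _ _ _ _ _ _ _ := s.ru g okX5_0 p5_5_0
  have s : St _ β _ _ (440 * 32) _ _ _ _ _ _ _ _ := s.ru g okX5_0 p5_6_0
  have s : St _ β _ _ (440 * 32) _ _ _ _ _ _ _ _ := s.rnz (i := 14080) g r5_6_2 ⟨by norm_num, c⟩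
  have s : St _ β _ _ (440 * 32) _ _ _ _ _ _ _ _ := s.rnz (i := 14080) g r5_6_3 ⟨by norm_num, c⟩
  have s : St _ β _ _ (440 * 32) _ _ _ _ _ _ _ _ := s.rnz (i := 14080) g r5_6_4 ⟨by norm_num, c⟩
  have s : St _ β _ _ (440 * 32) _ _ _ _ _ _ _ _ := s.rnz (i := 14080) g r5_6_5 ⟨by norm_num, c⟩
  have s : St _ β _ _ (440 * 32) _ _ _ _ _ _ _ _ := s.rnz (i := 14080) g r5_6_6 ⟨by norm_num, c⟩
  have s : St _ β _ _ (440 * 32) _ _ _ _ _ _ _ _ := s.rnz (i := 14080) g r5_6_7 ⟨by norm_num, c⟩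
  have s : St _ β _ _ (440 * 32) _ _ _ _ _ _ _ _ := s.rnz (i := 14080) g r5_6_8 ⟨by norm_num, c⟩
  have s : St _ β _ _ (440 * 32) _ _ _ _ _ _ _ _ := s.rnz (i := 14080) g r5_6_9 ⟨by norm_num, c⟩
  have s : St _ β _ _ (440 * 32) _ _ _ _ _ _ _ _ := s.rnz (i := 14080) g r5_7_0 ⟨by norm_num, c⟩
  have s : St _ β _ _ (440 * 32) _ _ _ _ _ _ _ _ := s.rnz (i := 14080) g r5_7_1 ⟨by norm_num, c⟩
  have s : St _ β _ _ (440 * 32) _ _ _ _ _ _ _ _ := s.rnz (i := 14080) g r5_7_2 ⟨by norm_num, c⟩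
  have s : St _ β _ _ (440 * 32) _ _ _ _ _ _ _ _ := s.rnz (i := 14080) g r5_7_3 ⟨by norm_num, c⟩
  have s : St _ β _ _ (440 * 32) _ _ _ _ _ _ _ _ := s.rnz (i := 14080) g r5_7_4 ⟨by norm_num, c⟩
  have s : St _ β _ _ (440 * 32) _ _ _ _ _ _ _ _ := s.rnz (i := 14080) g r5_7_5 ⟨by norm_num, c⟩
  have s : St _ β _ _ (440 * 32) _ _ _ _ _ _ _ _ := s.rnz (i := 14080) g r5_7_6 ⟨by norm_num, c⟩
  have s : St _ β _ _ (440 * 32) _ _ _ _ _ _ _ _ := s.rnz (i := 14080) g r5_8_0 ⟨by norm_num, c⟩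
  have s : St _ β _ _ (440 * 32) _ _ _ _ _ _ _ _ := s.rnz (i := 14080) g r5_8_1 ⟨by norm_num, c⟩
  have s : St _ β _ _ (440 * 32) _ _ _ _ _ _ _ _ := s.rnz (i := 14080) g r5_8_2 ⟨by norm_num, c⟩
  have s : St _ β _ _ (440 * 32) _ _ _ _ _ _ _ _ := s.rnz (i := 14080) g r5_8_3 ⟨by norm_num, c⟩
  have s : St _ β _ _ (440 * 32) _ _ _ _ _ _ _ _ := s.rnz (i := 14080) g r5_8_4 ⟨by norm_num, c⟩
  have s : St _ β _ _ (440 * 32) _ _ _ _ _ _ _ _ := s.rnz (i := 14080) g r5_8_5 ⟨by norm_num, c⟩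
  have s : St _ β _ _ (440 * 32) _ _ _ _ _ _ _ _ := s.rnz (i := 14080) g r5_8_6 ⟨by norm_num, c⟩
  have s : St _ β _ _ (440 * 32) _ _ _ _ _ _ _ _ := s.rnz (i := 14080) g r5_9_0 ⟨by norm_num, c⟩
  have s : St _ β _ _ (440 * 32) _ _ _ _ _ _ _ _ := s.rnz (i := 14080) g r5_9_1 ⟨by norm_num, c⟩
  have s : St _ β _ _ (440 * 32) _ _ _ _ _ _ _ _ := s.rnz (i := 14080) g r5_9_2 ⟨by norm_num, c⟩
  have s : St _ β _ _ (440 * 32) _ _ _ _ _ _ _ _ := s.rnz (i := 14080) g r5_9_3 ⟨by norm_num, c⟩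
  have s : St _ β _ _ (440 * 32) _ _ _ _ _ _ _ _ := s.rnz (i := 14080) g r5_9_4 ⟨by norm_num, c⟩
  have s : St _ β _ _ (440 * 32) _ _ _ _ _ _ _ _ := s.rnz (i := 14080) g r5_9_5 ⟨by norm_num, c⟩
  have s : St _ β _ _ (440 * 32) _ _ _ _ _ _ _ _ := s.rnz (i := 14080) g r5_9_6 ⟨by norm_num, c⟩
  have s : St _ β _ _ (440 * 32) _ _ _ _ _ _ _ _ := s.rnz (i := 14080) g r5_10_0 ⟨by norm_num, c⟩
  exact s.out g (by decide +kernel)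

theorem tab13 : tab FA FB D13 R13 11 = true := by decide +kernel

theorem seg13 : Seg ⟨FA, FB, FT, 60608, 10033, 38173, geo_ok⟩ 10033 9889 3200 8400 := fun _ E β ht h hb h' => by
  letI : Geo := ⟨FA, FB, FT, 60608, 10033, 38173, geo_ok⟩
  have c : rd R13 35 = 9889 := by decide +kernel
  have g := tc_re (E := E) tab13 (ro := 10033) (C0 := 9889) (by decide +kernel) ht hb
  have s : St (E.re tab13) β 9889 H13_0 (0 * 32) _ X13_0 _ _ _ _ _ _ :=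
    g.start H13_0 9889 1 (by decide +kernel) h h'
  have s : St _ β _ _ (154 * 32) _ _ _ _ _ _ _ _ := s.ru g okX13_0 p13_0_0
  have s : St _ β _ _ (244 * 32) _ _ _ _ _ _ _ _ := s.ru g okX13_0 p13_1_0
  have s : St _ β _ _ (323 * 32) _ _ _ _ _ _ _ _ := s.ru g okX13_0 p13_2_0
  have s : St _ β _ _ (402 * 32) _ _ _ _ _ _ _ _ := s.ru g okX13_0 p13_3_0
  have s : St _ β _ _ (472 * 32) _ _ _ _ _ _ _ _ := s.ru g okX13_0 p13_4_0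
  have s : St _ β _ _ (536 * 32) _ _ _ _ _ _ _ _ := s.ru g okX13_0 p13_5_0
  have s : St _ β _ _ (593 * 32) _ _ _ _ _ _ _ _ := s.ru g okX13_0 p13_6_0
  have s : St _ β _ _ (648 * 32) _ _ _ _ _ _ _ _ := s.ru g okX13_0 p13_7_0
  have s : St _ β _ _ (700 * 32) _ _ _ _ _ _ _ _ := s.ru g okX13_0 p13_8_0
  have s : St _ β _ _ (757 * 32) _ _ _ _ _ _ _ _ := s.ru g okX13_0 p13_9_0
  have s : St _ β _ _ (808 * 32) _ _ _ _ _ _ _ _ := s.ru g okX13_0 p13_10_0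
  have s : St _ β _ _ (852 * 32) _ _ _ _ _ _ _ _ := s.ru g okX13_0 p13_11_0
  have s : St _ β _ _ (906 * 32) _ _ _ _ _ _ _ _ := s.ru g okX13_0 p13_12_0
  have s : St _ β _ _ (956 * 32) _ _ _ _ _ _ _ _ := s.ru g okX13_0 p13_13_0
  have s : St _ β _ _ (1005 * 32) _ _ _ _ _ _ _ _ := s.ru g okX13_0 p13_14_0
  have s : St _ β _ _ (1051 * 32) _ _ _ _ _ _ _ _ := s.ru g okX13_0 p13_15_0
  have s : St _ β _ _ (1098 * 32) _ _ _ _ _ _ _ _ := s.ru g okX13_0 p13_16_0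
  have s : St _ β _ _ (1139 * 32) _ _ _ _ _ _ _ _ := s.ru g okX13_0 p13_17_0
  have s : St _ β _ _ (1170 * 32) _ _ _ _ _ _ _ _ := s.ru g okX13_0 p13_18_0
  have s : St _ β _ _ (1198 * 32) _ _ _ _ _ _ _ _ := s.ru g okX13_0 p13_19_0
  have s : St _ β _ _ (1227 * 32) _ _ _ _ _ _ _ _ := s.ru g okX13_0 p13_20_0
  have s : St _ β _ _ (1252 * 32) _ _ _ _ _ _ _ _ := s.ru g okX13_0 p13_21_0
  have s : St _ β _ _ (1273 * 32) _ _ _ _ _ _ _ _ := s.ru g okX13_0 p13_22_0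
  have s : St _ β _ _ (1295 * 32) _ _ _ _ _ _ _ _ := s.ru g okX13_0 p13_23_0
  have s : St _ β _ _ (1314 * 32) _ _ _ _ _ _ _ _ := s.ru g okX13_0 p13_24_0
  have s : St _ β _ _ (1326 * 32) _ _ _ _ _ _ _ _ := s.ru g okX13_0 p13_25_0
  have s : St _ β _ _ (1328 * 32) _ _ _ _ _ _ _ _ := s.ru g okX13_0 p13_26_0
  have s : St _ β _ _ (1328 * 32) _ _ _ _ _ _ _ _ := s.rnz (i := 42496) g r13_26_2 ⟨by norm_num, c⟩
  have s : St _ β _ _ (1328 * 32) _ _ _ _ _ _ _ _ := s.rnz (i := 42496) g r13_26_3 ⟨by norm_num, c⟩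
  have s : St _ β _ _ (1328 * 32) _ _ _ _ _ _ _ _ := s.rnz (i := 42496) g r13_26_4 ⟨by norm_num, c⟩
  have s : St _ β _ _ (1328 * 32) _ _ _ _ _ _ _ _ := s.rnz (i := 42496) g r13_26_5 ⟨by norm_num, c⟩
  have s : St _ β _ _ (1328 * 32) _ _ _ _ _ _ _ _ := s.rnz (i := 42496) g r13_26_6 ⟨by norm_num, c⟩
  have s : St _ β _ _ (1328 * 32) _ _ _ _ _ _ _ _ := s.rnz (i := 42496) g r13_26_7 ⟨by norm_num, c⟩
  have s : St _ β _ _ (1328 * 32) _ _ _ _ _ _ _ _ := s.rnz (i := 42496) g r13_27_0 ⟨by norm_num, c⟩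
  have s : St _ β _ _ (1328 * 32) _ _ _ _ _ _ _ _ := s.rnz (i := 42496) g r13_27_1 ⟨by norm_num, c⟩
  have s : St _ β _ _ (1328 * 32) _ _ _ _ _ _ _ _ := s.rnz (i := 42496) g r13_27_2 ⟨by norm_num, c⟩
  have s : St _ β _ _ (1328 * 32) _ _ _ _ _ _ _ _ := s.rnz (i := 42496) g r13_27_3 ⟨by norm_num, c⟩
  have s : St _ β _ _ (1328 * 32) _ _ _ _ _ _ _ _ := s.rnz (i := 42496) g r13_27_4 ⟨by norm_num, c⟩
  have s : St _ β _ _ (1328 * 32) _ _ _ _ _ _ _ _ := s.rnz (i := 42496) g r13_27_5 ⟨by norm_num, c⟩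
  have s : St _ β _ _ (1328 * 32) _ _ _ _ _ _ _ _ := s.rnz (i := 42496) g r13_27_6 ⟨by norm_num, c⟩
  have s : St _ β _ _ (1328 * 32) _ _ _ _ _ _ _ _ := s.rnz (i := 42496) g r13_28_0 ⟨by norm_num, c⟩
  have s : St _ β _ _ (1328 * 32) _ _ _ _ _ _ _ _ := s.rnz (i := 42496) g r13_28_1 ⟨by norm_num, c⟩
  have s : St _ β _ _ (1328 * 32) _ _ _ _ _ _ _ _ := s.rnz (i := 42496) g r13_28_2 ⟨by norm_num, c⟩
  have s : St _ β _ _ (1328 * 32) _ _ _ _ _ _ _ _ := s.rnz (i := 42496) g r13_28_3 ⟨by norm_num, c⟩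
  have s : St _ β _ _ (1328 * 32) _ _ _ _ _ _ _ _ := s.rnz (i := 42496) g r13_28_4 ⟨by norm_num, c⟩
  have s : St _ β _ _ (1348 * 32) _ _ _ _ _ _ _ _ := s.ru g okX13_23 p13_28_5
  have s : St _ β _ _ (1448 * 32) _ _ _ _ _ _ _ _ := s.ru g okX13_23 p13_29_0
  have s : St _ β _ _ (1516 * 32) _ _ _ _ _ _ _ _ := s.ru g okX13_23 p13_30_0
  have s : St _ β _ _ (1566 * 32) _ _ _ _ _ _ _ _ := s.ru g okX13_23 p13_31_0
  have s : St _ β _ _ (1614 * 32) _ _ _ _ _ _ _ _ := s.ru g okX13_23 p13_32_0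
  have s : St _ β _ _ (1656 * 32) _ _ _ _ _ _ _ _ := s.ru g okX13_23 p13_33_0
  have s : St _ β _ _ (1693 * 32) _ _ _ _ _ _ _ _ := s.ru g okX13_23 p13_34_0
  have s : St _ β _ _ (1728 * 32) _ _ _ _ _ _ _ _ := s.ru g okX13_23 p13_35_0
  have s : St _ β _ _ (1764 * 32) _ _ _ _ _ _ _ _ := s.ru g okX13_23 p13_36_0
  have s : St _ β _ _ (1803 * 32) _ _ _ _ _ _ _ _ := s.ru g okX13_23 p13_37_0
  have s : St _ β _ _ (1844 * 32) _ _ _ _ _ _ _ _ := s.ru g okX13_23 p13_38_0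
  have s : St _ β _ _ (1877 * 32) _ _ _ _ _ _ _ _ := s.ru g okX13_23 p13_39_0
  have s : St _ β _ _ (1913 * 32) _ _ _ _ _ _ _ _ := s.ru g okX13_23 p13_40_0
  have s : St _ β _ _ (1949 * 32) _ _ _ _ _ _ _ _ := s.ru g okX13_23 p13_41_0
  have s : St _ β _ _ (1979 * 32) _ _ _ _ _ _ _ _ := s.ru g okX13_23 p13_42_0
  have s : St _ β _ _ (2007 * 32) _ _ _ _ _ _ _ _ := s.ru g okX13_23 p13_43_0
  have s : St _ β _ _ (2038 * 32) _ _ _ _ _ _ _ _ := s.ru g okX13_23 p13_44_0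
  have s : St _ β _ _ (2060 * 32) _ _ _ _ _ _ _ _ := s.ru g okX13_23 p13_45_0
  have s : St _ β _ _ (2083 * 32) _ _ _ _ _ _ _ _ := s.ru g okX13_23 p13_46_0
  have s : St _ β _ _ (2105 * 32) _ _ _ _ _ _ _ _ := s.ru g okX13_23 p13_47_0
  have s : St _ β _ _ (2128 * 32) _ _ _ _ _ _ _ _ := s.ru g okX13_23 p13_48_0
  have s : St _ β _ _ (2153 * 32) _ _ _ _ _ _ _ _ := s.ru g okX13_23 p13_49_0
  have s : St _ β _ _ (2179 * 32) _ _ _ _ _ _ _ _ := s.ru g okX13_23 p13_50_0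
  have s : St _ β _ _ (2191 * 32) _ _ _ _ _ _ _ _ := s.ru g okX13_23 p13_51_0
  have s : St _ β _ _ (2191 * 32) _ _ _ _ _ _ _ _ := s.rnz (i := 70112) g r13_51_8 ⟨by norm_num, c⟩
  have s : St _ β _ _ (2191 * 32) _ _ _ _ _ _ _ _ := s.rnz (i := 70112) g r13_52_0 ⟨by norm_num, c⟩
  have s : St _ β _ _ (2191 * 32) _ _ _ _ _ _ _ _ := s.rnz (i := 70112) g r13_52_1 ⟨by norm_num, c⟩
  have s : St _ β _ _ (2191 * 32) _ _ _ _ _ _ _ _ := s.rnz (i := 70112) g r13_52_2 ⟨by norm_num, c⟩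
  have s : St _ β _ _ (2191 * 32) _ _ _ _ _ _ _ _ := s.rnz (i := 70112) g r13_52_3 ⟨by norm_num, c⟩
  have s : St _ β _ _ (2191 * 32) _ _ _ _ _ _ _ _ := s.rnz (i := 70112) g r13_52_4 ⟨by norm_num, c⟩
  have s : St _ β _ _ (2191 * 32) _ _ _ _ _ _ _ _ := s.rnz (i := 70112) g r13_52_5 ⟨by norm_num, c⟩
  have s : St _ β _ _ (2191 * 32) _ _ _ _ _ _ _ _ := s.rnz (i := 70112) g r13_53_0 ⟨by norm_num, c⟩
  have s : St _ β _ _ (2191 * 32) _ _ _ _ _ _ _ _ := s.rnz (i := 70112) g r13_53_1 ⟨by norm_num, c⟩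
  have s : St _ β _ _ (2191 * 32) _ _ _ _ _ _ _ _ := s.rnz (i := 70112) g r13_53_2 ⟨by norm_num, c⟩
  have s : St _ β _ _ (2191 * 32) _ _ _ _ _ _ _ _ := s.rnz (i := 70112) g r13_53_3 ⟨by norm_num, c⟩
  have s : St _ β _ _ (2191 * 32) _ _ _ _ _ _ _ _ := s.rnz (i := 70112) g r13_53_4 ⟨by norm_num, c⟩
  have s : St _ β _ _ (2191 * 32) _ _ _ _ _ _ _ _ := s.rnz (i := 70112) g r13_53_5 ⟨by norm_num, c⟩
  have s : St _ β _ _ (2191 * 32) _ _ _ _ _ _ _ _ := s.rnz (i := 70112) g r13_54_0 ⟨by norm_num, c⟩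
  have s : St _ β _ _ (2191 * 32) _ _ _ _ _ _ _ _ := s.rnz (i := 70112) g r13_54_1 ⟨by norm_num, c⟩
  have s : St _ β _ _ (2191 * 32) _ _ _ _ _ _ _ _ := s.rnz (i := 70112) g r13_54_2 ⟨by norm_num, c⟩
  have s : St _ β _ _ (2191 * 32) _ _ _ _ _ _ _ _ := s.rnz (i := 70112) g r13_54_3 ⟨by norm_num, c⟩
  have s : St _ β _ _ (2191 * 32) _ _ _ _ _ _ _ _ := s.rnz (i := 70112) g r13_54_4 ⟨by norm_num, c⟩
  have s : St _ β _ _ (2191 * 32) _ _ _ _ _ _ _ _ := s.rnz (i := 70112) g r13_54_5 ⟨by norm_num, c⟩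
  have s : St _ β _ _ (2191 * 32) _ _ _ _ _ _ _ _ := s.rnz (i := 70112) g r13_55_0 ⟨by norm_num, c⟩
  have s : St _ β _ _ (2191 * 32) _ _ _ _ _ _ _ _ := s.rnz (i := 70112) g r13_55_1 ⟨by norm_num, c⟩
  have s : St _ β _ _ (2191 * 32) _ _ _ _ _ _ _ _ := s.rnz (i := 70112) g r13_55_2 ⟨by norm_num, c⟩
  have s : St _ β _ _ (2191 * 32) _ _ _ _ _ _ _ _ := s.rnz (i := 70112) g r13_55_3 ⟨by norm_num, c⟩
  have s : St _ β _ _ (2191 * 32) _ _ _ _ _ _ _ _ := s.rnz (i := 70112) g r13_55_4 ⟨by norm_num, c⟩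
  have s : St _ β _ _ (2191 * 32) _ _ _ _ _ _ _ _ := s.rnz (i := 70112) g r13_55_5 ⟨by norm_num, c⟩
  have s : St _ β _ _ (2191 * 32) _ _ _ _ _ _ _ _ := s.rnz (i := 70112) g r13_56_0 ⟨by norm_num, c⟩
  have s : St _ β _ _ (2191 * 32) _ _ _ _ _ _ _ _ := s.rnz (i := 70112) g r13_56_1 ⟨by norm_num, c⟩
  have s : St _ β _ _ (2270 * 32) _ _ _ _ _ _ _ _ := s.ru g okX13_63 p13_56_2
  have s : St _ β _ _ (2337 * 32) _ _ _ _ _ _ _ _ := s.ru g okX13_63 p13_57_0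
  have s : St _ β _ _ (2390 * 32) _ _ _ _ _ _ _ _ := s.ru g okX13_63 p13_58_0
  have s : St _ β _ _ (2426 * 32) _ _ _ _ _ _ _ _ := s.ru g okX13_63 p13_59_0
  have s : St _ β _ _ (2470 * 32) _ _ _ _ _ _ _ _ := s.ru g okX13_63 p13_60_0
  have s : St _ β _ _ (2503 * 32) _ _ _ _ _ _ _ _ := s.ru g okX13_63 p13_61_0
  have s : St _ β _ _ (2542 * 32) _ _ _ _ _ _ _ _ := s.ru g okX13_63 p13_62_0
  have s : St _ β _ _ (2575 * 32) _ _ _ _ _ _ _ _ := s.ru g okX13_63 p13_63_0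
  have s : St _ β _ _ (2612 * 32) _ _ _ _ _ _ _ _ := s.ru g okX13_63 p13_64_0
  have s : St _ β _ _ (2646 * 32) _ _ _ _ _ _ _ _ := s.ru g okX13_63 p13_65_0
  have s : St _ β _ _ (2683 * 32) _ _ _ _ _ _ _ _ := s.ru g okX13_63 p13_66_0
  have s : St _ β _ _ (2716 * 32) _ _ _ _ _ _ _ _ := s.ru g okX13_63 p13_67_0
  have s : St _ β _ _ (2753 * 32) _ _ _ _ _ _ _ _ := s.ru g okX13_63 p13_68_0
  have s : St _ β _ _ (2783 * 32) _ _ _ _ _ _ _ _ := s.ru g okX13_63 p13_69_0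
  have s : St _ β _ _ (2809 * 32) _ _ _ _ _ _ _ _ := s.ru g okX13_63 p13_70_0
  have s : St _ β _ _ (2835 * 32) _ _ _ _ _ _ _ _ := s.ru g okX13_63 p13_71_0
  have s : St _ β _ _ (2861 * 32) _ _ _ _ _ _ _ _ := s.ru g okX13_63 p13_72_0
  have s : St _ β _ _ (2886 * 32) _ _ _ _ _ _ _ _ := s.ru g okX13_63 p13_73_0
  have s : St _ β _ _ (2905 * 32) _ _ _ _ _ _ _ _ := s.ru g okX13_63 p13_74_0
  have s : St _ β _ _ (2932 * 32) _ _ _ _ _ _ _ _ := s.ru g okX13_63 p13_75_0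
  have s : St _ β _ _ (2949 * 32) _ _ _ _ _ _ _ _ := s.ru g okX13_63 p13_76_0
  have s : St _ β _ _ (2949 * 32) _ _ _ _ _ _ _ _ := s.rnz (i := 94368) g r13_77_0 ⟨by norm_num, c⟩
  have s : St _ β _ _ (2949 * 32) _ _ _ _ _ _ _ _ := s.rnz (i := 94368) g r13_77_1 ⟨by norm_num, c⟩
  have s : St _ β _ _ (2949 * 32) _ _ _ _ _ _ _ _ := s.rnz (i := 94368) g r13_77_2 ⟨by norm_num, c⟩
  have s : St _ β _ _ (2949 * 32) _ _ _ _ _ _ _ _ := s.rnz (i := 94368) g r13_77_3 ⟨by norm_num, c⟩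
  have s : St _ β _ _ (2949 * 32) _ _ _ _ _ _ _ _ := s.rnz (i := 94368) g r13_77_4 ⟨by norm_num, c⟩
  have s : St _ β _ _ (2949 * 32) _ _ _ _ _ _ _ _ := s.rnz (i := 94368) g r13_77_5 ⟨by norm_num, c⟩
  have s : St _ β _ _ (2949 * 32) _ _ _ _ _ _ _ _ := s.rnz (i := 94368) g r13_78_0 ⟨by norm_num, c⟩
  have s : St _ β _ _ (2949 * 32) _ _ _ _ _ _ _ _ := s.rnz (i := 94368) g r13_78_1 ⟨by norm_num, c⟩
  have s : St _ β _ _ (2949 * 32) _ _ _ _ _ _ _ _ := s.rnz (i := 94368) g r13_78_2 ⟨by norm_num, c⟩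
  have s : St _ β _ _ (2949 * 32) _ _ _ _ _ _ _ _ := s.rnz (i := 94368) g r13_78_3 ⟨by norm_num, c⟩
  have s : St _ β _ _ (2949 * 32) _ _ _ _ _ _ _ _ := s.rnz (i := 94368) g r13_78_4 ⟨by norm_num, c⟩
  have s : St _ β _ _ (2949 * 32) _ _ _ _ _ _ _ _ := s.rnz (i := 94368) g r13_78_5 ⟨by norm_num, c⟩
  have s : St _ β _ _ (2949 * 32) _ _ _ _ _ _ _ _ := s.rnz (i := 94368) g r13_78_6 ⟨by norm_num, c⟩
  have s : St _ β _ _ (2949 * 32) _ _ _ _ _ _ _ _ := s.rnz (i := 94368) g r13_79_0 ⟨by norm_num, c⟩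
  have s : St _ β _ _ (2949 * 32) _ _ _ _ _ _ _ _ := s.rnz (i := 94368) g r13_79_1 ⟨by norm_num, c⟩
  have s : St _ β _ _ (2949 * 32) _ _ _ _ _ _ _ _ := s.rnz (i := 94368) g r13_79_2 ⟨by norm_num, c⟩
  have s : St _ β _ _ (2949 * 32) _ _ _ _ _ _ _ _ := s.rnz (i := 94368) g r13_79_3 ⟨by norm_num, c⟩
  have s : St _ β _ _ (2949 * 32) _ _ _ _ _ _ _ _ := s.rnz (i := 94368) g r13_79_4 ⟨by norm_num, c⟩
  have s : St _ β _ _ (2949 * 32) _ _ _ _ _ _ _ _ := s.rnz (i := 94368) g r13_79_5 ⟨by norm_num, c⟩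
  have s : St _ β _ _ (2949 * 32) _ _ _ _ _ _ _ _ := s.rnz (i := 94368) g r13_79_6 ⟨by norm_num, c⟩
  have s : St _ β _ _ (2949 * 32) _ _ _ _ _ _ _ _ := s.rnz (i := 94368) g r13_80_0 ⟨by norm_num, c⟩
  have s : St _ β _ _ (2949 * 32) _ _ _ _ _ _ _ _ := s.rnz (i := 94368) g r13_80_1 ⟨by norm_num, c⟩
  have s : St _ β _ _ (2949 * 32) _ _ _ _ _ _ _ _ := s.rnz (i := 94368) g r13_80_2 ⟨by norm_num, c⟩
  have s : St _ β _ _ (2949 * 32) _ _ _ _ _ _ _ _ := s.rnz (i := 94368) g r13_80_3 ⟨by norm_num, c⟩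
  have s : St _ β _ _ (2978 * 32) _ _ _ _ _ _ _ _ := s.ru g okX13_94 p13_80_4
  have s : St _ β _ _ (3045 * 32) _ _ _ _ _ _ _ _ := s.ru g okX13_94 p13_81_0
  have s : St _ β _ _ (3089 * 32) _ _ _ _ _ _ _ _ := s.ru g okX13_94 p13_82_0
  have s : St _ β _ _ (3129 * 32) _ _ _ _ _ _ _ _ := s.ru g okX13_94 p13_83_0
  have s : St _ β _ _ (3173 * 32) _ _ _ _ _ _ _ _ := s.ru g okX13_94 p13_84_0
  have s : St _ β _ _ (3215 * 32) _ _ _ _ _ _ _ _ := s.ru g okX13_94 p13_85_0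
  have s : St _ β _ _ (3255 * 32) _ _ _ _ _ _ _ _ := s.ru g okX13_94 p13_86_0
  have s : St _ β _ _ (3287 * 32) _ _ _ _ _ _ _ _ := s.ru g okX13_94 p13_87_0
  have s : St _ β _ _ (3322 * 32) _ _ _ _ _ _ _ _ := s.ru g okX13_94 p13_88_0
  have s : St _ β _ _ (3349 * 32) _ _ _ _ _ _ _ _ := s.ru g okX13_94 p13_89_0
  have s : St _ β _ _ (3374 * 32) _ _ _ _ _ _ _ _ := s.ru g okX13_94 p13_90_0
  have s : St _ β _ _ (3399 * 32) _ _ _ _ _ _ _ _ := s.ru g okX13_94 p13_91_0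
  have s : St _ β _ _ (3427 * 32) _ _ _ _ _ _ _ _ := s.ru g okX13_94 p13_92_0
  have s : St _ β _ _ (3455 * 32) _ _ _ _ _ _ _ _ := s.ru g okX13_94 p13_93_0
  have s : St _ β _ _ (3474 * 32) _ _ _ _ _ _ _ _ := s.ru g okX13_94 p13_94_0
  have s : St _ β _ _ (3474 * 32) _ _ _ _ _ _ _ _ := s.rnz (i := 111168) g r13_94_11 ⟨by norm_num, c⟩
  have s : St _ β _ _ (3474 * 32) _ _ _ _ _ _ _ _ := s.rnz (i := 111168) g r13_94_12 ⟨by norm_num, c⟩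
  have s : St _ β _ _ (3474 * 32) _ _ _ _ _ _ _ _ := s.rnz (i := 111168) g r13_95_0 ⟨by norm_num, c⟩
  have s : St _ β _ _ (3474 * 32) _ _ _ _ _ _ _ _ := s.rnz (i := 111168) g r13_95_1 ⟨by norm_num, c⟩
  have s : St _ β _ _ (3474 * 32) _ _ _ _ _ _ _ _ := s.rnz (i := 111168) g r13_95_2 ⟨by norm_num, c⟩
  have s : St _ β _ _ (3474 * 32) _ _ _ _ _ _ _ _ := s.rnz (i := 111168) g r13_95_3 ⟨by norm_num, c⟩
  have s : St _ β _ _ (3474 * 32) _ _ _ _ _ _ _ _ := s.rnz (i := 111168) g r13_95_4 ⟨by norm_num, c⟩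
  have s : St _ β _ _ (3474 * 32) _ _ _ _ _ _ _ _ := s.rnz (i := 111168) g r13_95_5 ⟨by norm_num, c⟩
  have s : St _ β _ _ (3474 * 32) _ _ _ _ _ _ _ _ := s.rnz (i := 111168) g r13_96_0 ⟨by norm_num, c⟩
  have s : St _ β _ _ (3474 * 32) _ _ _ _ _ _ _ _ := s.rnz (i := 111168) g r13_96_1 ⟨by norm_num, c⟩
  have s : St _ β _ _ (3474 * 32) _ _ _ _ _ _ _ _ := s.rnz (i := 111168) g r13_96_2 ⟨by norm_num, c⟩
  have s : St _ β _ _ (3474 * 32) _ _ _ _ _ _ _ _ := s.rnz (i := 111168) g r13_96_3 ⟨by norm_num, c⟩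
  have s : St _ β _ _ (3474 * 32) _ _ _ _ _ _ _ _ := s.rnz (i := 111168) g r13_96_4 ⟨by norm_num, c⟩
  have s : St _ β _ _ (3474 * 32) _ _ _ _ _ _ _ _ := s.rnz (i := 111168) g r13_96_5 ⟨by norm_num, c⟩
  have s : St _ β _ _ (3474 * 32) _ _ _ _ _ _ _ _ := s.rnz (i := 111168) g r13_96_6 ⟨by norm_num, c⟩
  have s : St _ β _ _ (3474 * 32) _ _ _ _ _ _ _ _ := s.rnz (i := 111168) g r13_97_0 ⟨by norm_num, c⟩
  have s : St _ β _ _ (3474 * 32) _ _ _ _ _ _ _ _ := s.rnz (i := 111168) g r13_97_1 ⟨by norm_num, c⟩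
  have s : St _ β _ _ (3474 * 32) _ _ _ _ _ _ _ _ := s.rnz (i := 111168) g r13_97_2 ⟨by norm_num, c⟩
  have s : St _ β _ _ (3474 * 32) _ _ _ _ _ _ _ _ := s.rnz (i := 111168) g r13_97_3 ⟨by norm_num, c⟩
  have s : St _ β _ _ (3474 * 32) _ _ _ _ _ _ _ _ := s.rnz (i := 111168) g r13_97_4 ⟨by norm_num, c⟩
  have s : St _ β _ _ (3474 * 32) _ _ _ _ _ _ _ _ := s.rnz (i := 111168) g r13_97_5 ⟨by norm_num, c⟩
  have s : St _ β _ _ (3474 * 32) _ _ _ _ _ _ _ _ := s.rnz (i := 111168) g r13_97_6 ⟨by norm_num, c⟩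
  have s : St _ β _ _ (3474 * 32) _ _ _ _ _ _ _ _ := s.rnz (i := 111168) g r13_98_0 ⟨by norm_num, c⟩
  have s : St _ β _ _ (3567 * 32) _ _ _ _ _ _ _ _ := s.ru g okX13_122 p13_98_1
  have s : St _ β _ _ (3625 * 32) _ _ _ _ _ _ _ _ := s.ru g okX13_122 p13_99_0
  have s : St _ β _ _ (3691 * 32) _ _ _ _ _ _ _ _ := s.ru g okX13_122 p13_100_0
  have s : St _ β _ _ (3744 * 32) _ _ _ _ _ _ _ _ := s.ru g okX13_122 p13_101_0
  have s : St _ β _ _ (3786 * 32) _ _ _ _ _ _ _ _ := s.ru g okX13_122 p13_102_0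
  have s : St _ β _ _ (3824 * 32) _ _ _ _ _ _ _ _ := s.ru g okX13_122 p13_103_0
  have s : St _ β _ _ (3848 * 32) _ _ _ _ _ _ _ _ := s.ru g okX13_122 p13_104_0
  have s : St _ β _ _ (3878 * 32) _ _ _ _ _ _ _ _ := s.ru g okX13_122 p13_105_0
  have s : St _ β _ _ (3903 * 32) _ _ _ _ _ _ _ _ := s.ru g okX13_122 p13_106_0
  have s : St _ β _ _ (3917 * 32) _ _ _ _ _ _ _ _ := s.ru g okX13_122 p13_107_0
  have s : St _ β _ _ (3917 * 32) _ _ _ _ _ _ _ _ := s.rnz (i := 125344) g r13_107_8 ⟨by norm_num, c⟩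
  have s : St _ β _ _ (3917 * 32) _ _ _ _ _ _ _ _ := s.rnz (i := 125344) g r13_107_9 ⟨by norm_num, c⟩
  have s : St _ β _ _ (3917 * 32) _ _ _ _ _ _ _ _ := s.rnz (i := 125344) g r13_107_10 ⟨by norm_num, c⟩
  have s : St _ β _ _ (3917 * 32) _ _ _ _ _ _ _ _ := s.rnz (i := 125344) g r13_108_0 ⟨by norm_num, c⟩
  have s : St _ β _ _ (3917 * 32) _ _ _ _ _ _ _ _ := s.rnz (i := 125344) g r13_108_1 ⟨by norm_num, c⟩
  have s : St _ β _ _ (3917 * 32) _ _ _ _ _ _ _ _ := s.rnz (i := 125344) g r13_108_2 ⟨by norm_num, c⟩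
  have s : St _ β _ _ (3917 * 32) _ _ _ _ _ _ _ _ := s.rnz (i := 125344) g r13_108_3 ⟨by norm_num, c⟩
  have s : St _ β _ _ (3917 * 32) _ _ _ _ _ _ _ _ := s.rnz (i := 125344) g r13_108_4 ⟨by norm_num, c⟩
  have s : St _ β _ _ (3917 * 32) _ _ _ _ _ _ _ _ := s.rnz (i := 125344) g r13_108_5 ⟨by norm_num, c⟩
  have s : St _ β _ _ (3917 * 32) _ _ _ _ _ _ _ _ := s.rnz (i := 125344) g r13_108_6 ⟨by norm_num, c⟩
  have s : St _ β _ _ (3917 * 32) _ _ _ _ _ _ _ _ := s.rnz (i := 125344) g r13_109_0 ⟨by norm_num, c⟩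
  have s : St _ β _ _ (3917 * 32) _ _ _ _ _ _ _ _ := s.rnz (i := 125344) g r13_109_1 ⟨by norm_num, c⟩
  have s : St _ β _ _ (3917 * 32) _ _ _ _ _ _ _ _ := s.rnz (i := 125344) g r13_109_2 ⟨by norm_num, c⟩
  have s : St _ β _ _ (3917 * 32) _ _ _ _ _ _ _ _ := s.rnz (i := 125344) g r13_109_3 ⟨by norm_num, c⟩
  have s : St _ β _ _ (3917 * 32) _ _ _ _ _ _ _ _ := s.rnz (i := 125344) g r13_109_4 ⟨by norm_num, c⟩
  have s : St _ β _ _ (3917 * 32) _ _ _ _ _ _ _ _ := s.rnz (i := 125344) g r13_109_5 ⟨by norm_num, c⟩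
  have s : St _ β _ H13_1 (914 * 32) _ _ _ _ _ _ _ _ := s.cpy (i := 125344) cp13_1
  have s : St _ β _ _ (991 * 32) _ _ _ _ _ _ _ _ := s.ru g okX13_145 p13_110_0
  have s : St _ β _ _ (1039 * 32) _ _ _ _ _ _ _ _ := s.ru g okX13_145 p13_111_0
  have s : St _ β _ _ (1086 * 32) _ _ _ _ _ _ _ _ := s.ru g okX13_145 p13_112_0
  have s : St _ β _ _ (1124 * 32) _ _ _ _ _ _ _ _ := s.ru g okX13_145 p13_113_0
  have s : St _ β _ _ (1170 * 32) _ _ _ _ _ _ _ _ := s.ru g okX13_145 p13_114_0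
  have s : St _ β _ _ (1203 * 32) _ _ _ _ _ _ _ _ := s.ru g okX13_145 p13_115_0
  have s : St _ β _ _ (1238 * 32) _ _ _ _ _ _ _ _ := s.ru g okX13_145 p13_116_0
  have s : St _ β _ _ (1265 * 32) _ _ _ _ _ _ _ _ := s.ru g okX13_145 p13_117_0
  have s : St _ β _ _ (1293 * 32) _ _ _ _ _ _ _ _ := s.ru g okX13_145 p13_118_0
  have s : St _ β _ _ (1324 * 32) _ _ _ _ _ _ _ _ := s.ru g okX13_145 p13_119_0
  have s : St _ β _ _ (1329 * 32) _ _ _ _ _ _ _ _ := s.ru g okX13_145 p13_120_0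
  have s : St _ β _ _ (1329 * 32) _ _ _ _ _ _ _ _ := s.rnz (i := 42528) g r13_120_3 ⟨by norm_num, c⟩
  have s : St _ β _ _ (1329 * 32) _ _ _ _ _ _ _ _ := s.rnz (i := 42528) g r13_120_4 ⟨by norm_num, c⟩
  have s : St _ β _ _ (1329 * 32) _ _ _ _ _ _ _ _ := s.rnz (i := 42528) g r13_120_5 ⟨by norm_num, c⟩
  have s : St _ β _ _ (1329 * 32) _ _ _ _ _ _ _ _ := s.rnz (i := 42528) g r13_120_6 ⟨by norm_num, c⟩
  have s : St _ β _ _ (1329 * 32) _ _ _ _ _ _ _ _ := s.rnz (i := 42528) g r13_120_7 ⟨by norm_num, c⟩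
  have s : St _ β _ _ (1329 * 32) _ _ _ _ _ _ _ _ := s.rnz (i := 42528) g r13_121_0 ⟨by norm_num, c⟩
  have s : St _ β _ _ (1329 * 32) _ _ _ _ _ _ _ _ := s.rnz (i := 42528) g r13_121_1 ⟨by norm_num, c⟩
  have s : St _ β _ _ (1329 * 32) _ _ _ _ _ _ _ _ := s.rnz (i := 42528) g r13_121_2 ⟨by norm_num, c⟩
  have s : St _ β _ _ (1329 * 32) _ _ _ _ _ _ _ _ := s.rnz (i := 42528) g r13_121_3 ⟨by norm_num, c⟩
  have s : St _ β _ _ (1329 * 32) _ _ _ _ _ _ _ _ := s.rnz (i := 42528) g r13_121_4 ⟨by norm_num, c⟩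
  have s : St _ β _ _ (1329 * 32) _ _ _ _ _ _ _ _ := s.rnz (i := 42528) g r13_121_5 ⟨by norm_num, c⟩
  have s : St _ β _ _ (1329 * 32) _ _ _ _ _ _ _ _ := s.rnz (i := 42528) g r13_122_0 ⟨by norm_num, c⟩
  have s : St _ β _ _ (1390 * 32) _ _ _ _ _ _ _ _ := s.ru g okX13_163 p13_122_1
  have s : St _ β _ _ (1445 * 32) _ _ _ _ _ _ _ _ := s.ru g okX13_163 p13_123_0
  have s : St _ β _ _ (1479 * 32) _ _ _ _ _ _ _ _ := s.ru g okX13_163 p13_124_0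
  have s : St _ β _ _ (1510 * 32) _ _ _ _ _ _ _ _ := s.ru g okX13_163 p13_125_0
  have s : St _ β _ _ (1523 * 32) _ _ _ _ _ _ _ _ := s.ru g okX13_163 p13_126_0
  have s : St _ β _ _ (1523 * 32) _ _ _ _ _ _ _ _ := s.rnz (i := 48736) g r13_126_6 ⟨by norm_num, c⟩
  have s : St _ β _ _ (1523 * 32) _ _ _ _ _ _ _ _ := s.rnz (i := 48736) g r13_126_7 ⟨by norm_num, c⟩
  have s : St _ β _ _ (1523 * 32) _ _ _ _ _ _ _ _ := s.rnz (i := 48736) g r13_126_8 ⟨by norm_num, c⟩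
  have s : St _ β _ _ (1523 * 32) _ _ _ _ _ _ _ _ := s.rnz (i := 48736) g r13_126_9 ⟨by norm_num, c⟩
  have s : St _ β _ _ (1523 * 32) _ _ _ _ _ _ _ _ := s.rnz (i := 48736) g r13_127_0 ⟨by norm_num, c⟩
  have s : St _ β _ _ (1585 * 32) _ _ _ _ _ _ _ _ := s.ru g okX13_169 p13_127_1
  have s : St _ β _ _ (1620 * 32) _ _ _ _ _ _ _ _ := s.ru g okX13_169 p13_128_0
  have s : St _ β _ _ (1639 * 32) _ _ _ _ _ _ _ _ := s.ru g okX13_169 p13_129_0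
  have s : St _ β _ _ (1639 * 32) _ _ _ _ _ _ _ _ := s.rnz (i := 52448) g r13_129_8 ⟨by norm_num, c⟩
  have s : St _ β _ _ (1639 * 32) _ _ _ _ _ _ _ _ := s.rnz (i := 52448) g r13_129_9 ⟨by norm_num, c⟩
  have s : St _ β _ _ (1639 * 32) _ _ _ _ _ _ _ _ := s.rnz (i := 52448) g r13_130_0 ⟨by norm_num, c⟩
  have s : St _ β _ _ (1706 * 32) _ _ _ _ _ _ _ _ := s.ru g okX13_174 p13_130_1
  have s : St _ β _ _ (1742 * 32) _ _ _ _ _ _ _ _ := s.ru g okX13_174 p13_131_0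
  have s : St _ β _ _ (1742 * 32) _ _ _ _ _ _ _ _ := s.rnz (i := 55744) g r13_131_13 ⟨by norm_num, c⟩
  have s : St _ β _ _ (1742 * 32) _ _ _ _ _ _ _ _ := s.rnz (i := 55744) g r13_131_14 ⟨by norm_num, c⟩
  have s : St _ β _ _ (1742 * 32) _ _ _ _ _ _ _ _ := s.rnz (i := 55744) g r13_132_0 ⟨by norm_num, c⟩
  have s : St _ β _ _ (1822 * 32) _ _ _ _ _ _ _ _ := s.ru g okX13_180 p13_132_1
  have s : St _ β _ _ (1886 * 32) _ _ _ _ _ _ _ _ := s.ru g okX13_180 p13_133_0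
  have s : St _ β _ _ (1939 * 32) _ _ _ _ _ _ _ _ := s.ru g okX13_180 p13_134_0
  have s : St _ β _ _ (1986 * 32) _ _ _ _ _ _ _ _ := s.ru g okX13_180 p13_135_0
  have s : St _ β _ _ (2027 * 32) _ _ _ _ _ _ _ _ := s.ru g okX13_180 p13_136_0
  have s : St _ β _ _ (2061 * 32) _ _ _ _ _ _ _ _ := s.ru g okX13_180 p13_137_0
  have s : St _ β _ _ (2102 * 32) _ _ _ _ _ _ _ _ := s.ru g okX13_180 p13_138_0
  have s : St _ β _ _ (2120 * 32) _ _ _ _ _ _ _ _ := s.ru g okX13_180 p13_139_0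
  have s : St _ β _ _ (2120 * 32) _ _ _ _ _ _ _ _ := s.rnz (i := 67840) g r13_139_8 ⟨by norm_num, c⟩
  have s : St _ β _ _ (2120 * 32) _ _ _ _ _ _ _ _ := s.rnz (i := 67840) g r13_139_9 ⟨by norm_num, c⟩
  have s : St _ β _ _ (2120 * 32) _ _ _ _ _ _ _ _ := s.rnz (i := 67840) g r13_139_10 ⟨by norm_num, c⟩
  have s : St _ β _ _ (2120 * 32) _ _ _ _ _ _ _ _ := s.rnz (i := 67840) g r13_139_11 ⟨by norm_num, c⟩
  have s : St _ β _ _ (2120 * 32) _ _ _ _ _ _ _ _ := s.rnz (i := 67840) g r13_140_0 ⟨by norm_num, c⟩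
  have s : St _ β _ _ (2120 * 32) _ _ _ _ _ _ _ _ := s.rnz (i := 67840) g r13_140_1 ⟨by norm_num, c⟩
  have s : St _ β _ _ (2120 * 32) _ _ _ _ _ _ _ _ := s.rnz (i := 67840) g r13_140_2 ⟨by norm_num, c⟩
  have s : St _ β _ _ (2120 * 32) _ _ _ _ _ _ _ _ := s.rnz (i := 67840) g r13_140_3 ⟨by norm_num, c⟩
  have s : St _ β _ _ (2120 * 32) _ _ _ _ _ _ _ _ := s.rnz (i := 67840) g r13_140_4 ⟨by norm_num, c⟩
  have s : St _ β _ _ (2120 * 32) _ _ _ _ _ _ _ _ := s.rnz (i := 67840) g r13_140_5 ⟨by norm_num, c⟩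
  have s : St _ β _ _ (2199 * 32) _ _ _ _ _ _ _ _ := s.ru g okX13_195 p13_141_0
  have s : St _ β _ _ (2255 * 32) _ _ _ _ _ _ _ _ := s.ru g okX13_195 p13_142_0
  have s : St _ β _ _ (2300 * 32) _ _ _ _ _ _ _ _ := s.ru g okX13_195 p13_143_0
  have s : St _ β _ _ (2333 * 32) _ _ _ _ _ _ _ _ := s.ru g okX13_195 p13_144_0
  have s : St _ β _ _ (2363 * 32) _ _ _ _ _ _ _ _ := s.ru g okX13_195 p13_145_0
  have s : St _ β _ _ (2363 * 32) _ _ _ _ _ _ _ _ := s.rnz (i := 75616) g r13_145_11 ⟨by norm_num, c⟩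
  have s : St _ β _ _ (2363 * 32) _ _ _ _ _ _ _ _ := s.rnz (i := 75616) g r13_146_0 ⟨by norm_num, c⟩
  have s : St _ β _ _ (2363 * 32) _ _ _ _ _ _ _ _ := s.rnz (i := 75616) g r13_146_1 ⟨by norm_num, c⟩
  have s : St _ β _ _ (2363 * 32) _ _ _ _ _ _ _ _ := s.rnz (i := 75616) g r13_146_2 ⟨by norm_num, c⟩
  have s : St _ β _ _ (2363 * 32) _ _ _ _ _ _ _ _ := s.rnz (i := 75616) g r13_146_3 ⟨by norm_num, c⟩
  have s : St _ β _ _ (2363 * 32) _ _ _ _ _ _ _ _ := s.rnz (i := 75616) g r13_146_4 ⟨by norm_num, c⟩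
  have s : St _ β _ _ (2363 * 32) _ _ _ _ _ _ _ _ := s.rnz (i := 75616) g r13_146_5 ⟨by norm_num, c⟩
  have s : St _ β _ _ (2363 * 32) _ _ _ _ _ _ _ _ := s.rnz (i := 75616) g r13_147_0 ⟨by norm_num, c⟩
  have s : St _ β _ _ (2363 * 32) _ _ _ _ _ _ _ _ := s.rnz (i := 75616) g r13_147_1 ⟨by norm_num, c⟩
  have s : St _ β _ _ (2363 * 32) _ _ _ _ _ _ _ _ := s.rnz (i := 75616) g r13_147_2 ⟨by norm_num, c⟩
  have s : St _ β _ _ (2424 * 32) _ _ _ _ _ _ _ _ := s.ru g okX13_209 p13_147_3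
  have s : St _ β _ _ (2496 * 32) _ _ _ _ _ _ _ _ := s.ru g okX13_209 p13_148_0
  have s : St _ β _ _ (2551 * 32) _ _ _ _ _ _ _ _ := s.ru g okX13_209 p13_149_0
  have s : St _ β _ _ (2598 * 32) _ _ _ _ _ _ _ _ := s.ru g okX13_209 p13_150_0
  have s : St _ β _ _ (2638 * 32) _ _ _ _ _ _ _ _ := s.ru g okX13_209 p13_151_0
  have s : St _ β _ _ (2646 * 32) _ _ _ _ _ _ _ _ := s.ru g okX13_209 p13_152_0
  have s : St _ β _ _ (2646 * 32) _ _ _ _ _ _ _ _ := s.rnz (i := 84672) g r13_152_3 ⟨by norm_num, c⟩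
  have s : St _ β _ _ (2646 * 32) _ _ _ _ _ _ _ _ := s.rnz (i := 84672) g r13_152_4 ⟨by norm_num, c⟩
  have s : St _ β _ _ (2646 * 32) _ _ _ _ _ _ _ _ := s.rnz (i := 84672) g r13_152_5 ⟨by norm_num, c⟩
  have s : St _ β _ _ (2646 * 32) _ _ _ _ _ _ _ _ := s.rnz (i := 84672) g r13_152_6 ⟨by norm_num, c⟩
  have s : St _ β _ _ (2646 * 32) _ _ _ _ _ _ _ _ := s.rnz (i := 84672) g r13_152_7 ⟨by norm_num, c⟩
  have s : St _ β _ _ (2646 * 32) _ _ _ _ _ _ _ _ := s.rnz (i := 84672) g r13_153_0 ⟨by norm_num, c⟩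
  have s : St _ β _ _ (2646 * 32) _ _ _ _ _ _ _ _ := s.rnz (i := 84672) g r13_153_1 ⟨by norm_num, c⟩
  have s : St _ β _ _ (2646 * 32) _ _ _ _ _ _ _ _ := s.rnz (i := 84672) g r13_153_2 ⟨by norm_num, c⟩
  have s : St _ β _ _ (2646 * 32) _ _ _ _ _ _ _ _ := s.rnz (i := 84672) g r13_153_3 ⟨by norm_num, c⟩
  have s : St _ β _ _ (2681 * 32) _ _ _ _ _ _ _ _ := s.ru g okX13_225 p13_153_4
  have s : St _ β _ _ (2751 * 32) _ _ _ _ _ _ _ _ := s.ru g okX13_225 p13_154_0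
  have s : St _ β _ _ (2813 * 32) _ _ _ _ _ _ _ _ := s.ru g okX13_225 p13_155_0
  have s : St _ β _ _ (2862 * 32) _ _ _ _ _ _ _ _ := s.ru g okX13_225 p13_156_0
  have s : St _ β _ _ (2905 * 32) _ _ _ _ _ _ _ _ := s.ru g okX13_225 p13_157_0
  have s : St _ β _ _ (2948 * 32) _ _ _ _ _ _ _ _ := s.ru g okX13_225 p13_158_0
  have s : St _ β _ _ (2948 * 32) _ _ _ _ _ _ _ _ := s.rnz (i := 94336) g r13_158_12 ⟨by norm_num, c⟩
  have s : St _ β _ _ (2948 * 32) _ _ _ _ _ _ _ _ := s.rnz (i := 94336) g r13_158_13 ⟨by norm_num, c⟩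
  have s : St _ β _ _ (2948 * 32) _ _ _ _ _ _ _ _ := s.rnz (i := 94336) g r13_159_0 ⟨by norm_num, c⟩
  have s : St _ β _ _ (2948 * 32) _ _ _ _ _ _ _ _ := s.rnz (i := 94336) g r13_159_1 ⟨by norm_num, c⟩
  have s : St _ β _ _ (2948 * 32) _ _ _ _ _ _ _ _ := s.rnz (i := 94336) g r13_159_2 ⟨by norm_num, c⟩
  have s : St _ β _ _ (2948 * 32) _ _ _ _ _ _ _ _ := s.rnz (i := 94336) g r13_159_3 ⟨by norm_num, c⟩
  have s : St _ β _ _ (2948 * 32) _ _ _ _ _ _ _ _ := s.rnz (i := 94336) g r13_159_4 ⟨by norm_num, c⟩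
  have s : St _ β _ _ (2948 * 32) _ _ _ _ _ _ _ _ := s.rnz (i := 94336) g r13_159_5 ⟨by norm_num, c⟩
  have s : St _ β _ _ (2948 * 32) _ _ _ _ _ _ _ _ := s.rnz (i := 94336) g r13_160_0 ⟨by norm_num, c⟩
  have s : St _ β _ _ (2948 * 32) _ _ _ _ _ _ _ _ := s.rnz (i := 94336) g r13_160_1 ⟨by norm_num, c⟩
  have s : St _ β _ _ (3012 * 32) _ _ _ _ _ _ _ _ := s.ru g okX13_239 p13_160_2
  have s : St _ β _ _ (3074 * 32) _ _ _ _ _ _ _ _ := s.ru g okX13_239 p13_161_0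
  have s : St _ β _ _ (3126 * 32) _ _ _ _ _ _ _ _ := s.ru g okX13_239 p13_162_0
  have s : St _ β _ _ (3175 * 32) _ _ _ _ _ _ _ _ := s.ru g okX13_239 p13_163_0
  have s : St _ β _ _ (3175 * 32) _ _ _ _ _ _ _ _ := s.rnz (i := 101600) g r13_163_12 ⟨by norm_num, c⟩
  have s : St _ β _ _ (3175 * 32) _ _ _ _ _ _ _ _ := s.rnz (i := 101600) g r13_164_0 ⟨by norm_num, c⟩
  have s : St _ β _ _ (3175 * 32) _ _ _ _ _ _ _ _ := s.rnz (i := 101600) g r13_164_1 ⟨by norm_num, c⟩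
  have s : St _ β _ _ (3175 * 32) _ _ _ _ _ _ _ _ := s.rnz (i := 101600) g r13_164_2 ⟨by norm_num, c⟩
  have s : St _ β _ _ (3175 * 32) _ _ _ _ _ _ _ _ := s.rnz (i := 101600) g r13_164_3 ⟨by norm_num, c⟩
  have s : St _ β _ _ (3175 * 32) _ _ _ _ _ _ _ _ := s.rnz (i := 101600) g r13_164_4 ⟨by norm_num, c⟩
  have s : St _ β _ _ (3175 * 32) _ _ _ _ _ _ _ _ := s.rnz (i := 101600) g r13_164_5 ⟨by norm_num, c⟩
  have s : St _ β _ _ (3175 * 32) _ _ _ _ _ _ _ _ := s.rnz (i := 101600) g r13_165_0 ⟨by norm_num, c⟩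
  have s : St _ β _ _ (3175 * 32) _ _ _ _ _ _ _ _ := s.rnz (i := 101600) g r13_165_1 ⟨by norm_num, c⟩
  have s : St _ β _ _ (3175 * 32) _ _ _ _ _ _ _ _ := s.rnz (i := 101600) g r13_165_2 ⟨by norm_num, c⟩
  have s : St _ β _ _ (3175 * 32) _ _ _ _ _ _ _ _ := s.rnz (i := 101600) g r13_165_3 ⟨by norm_num, c⟩
  have s : St _ β _ _ (3209 * 32) _ _ _ _ _ _ _ _ := s.ru g okX13_258 p13_165_4
  have s : St _ β _ _ (3280 * 32) _ _ _ _ _ _ _ _ := s.ru g okX13_258 p13_166_0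
  have s : St _ β _ _ (3293 * 32) _ _ _ _ _ _ _ _ := s.ru g okX13_258 p13_167_0
  have s : St _ β _ _ (3293 * 32) _ _ _ _ _ _ _ _ := s.rnz (i := 105376) g r13_167_3 ⟨by norm_num, c⟩
  have s : St _ β _ _ (3293 * 32) _ _ _ _ _ _ _ _ := s.rnz (i := 105376) g r13_167_4 ⟨by norm_num, c⟩
  have s : St _ β _ _ (3293 * 32) _ _ _ _ _ _ _ _ := s.rnz (i := 105376) g r13_167_5 ⟨by norm_num, c⟩
  have s : St _ β _ _ (3310 * 32) _ _ _ _ _ _ _ _ := s.ru g okX13_265 p13_167_6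
  have s : St _ β _ _ (3373 * 32) _ _ _ _ _ _ _ _ := s.ru g okX13_265 p13_168_0
  have s : St _ β _ _ (3382 * 32) _ _ _ _ _ _ _ _ := s.ru g okX13_265 p13_169_0
  have s : St _ β _ _ (3382 * 32) _ _ _ _ _ _ _ _ := s.rnz (i := 108224) g r13_169_3 ⟨by norm_num, c⟩
  have s : St _ β _ _ (3382 * 32) _ _ _ _ _ _ _ _ := s.rnz (i := 108224) g r13_169_4 ⟨by norm_num, c⟩
  have s : St _ β _ _ (3382 * 32) _ _ _ _ _ _ _ _ := s.rnz (i := 108224) g r13_169_5 ⟨by norm_num, c⟩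
  have s : St _ β _ _ (3382 * 32) _ _ _ _ _ _ _ _ := s.rnz (i := 108224) g r13_169_6 ⟨by norm_num, c⟩
  have s : St _ β _ _ (3382 * 32) _ _ _ _ _ _ _ _ := s.rnz (i := 108224) g r13_169_7 ⟨by norm_num, c⟩
  have s : St _ β _ _ (3388 * 32) _ _ _ _ _ _ _ _ := s.ru g okX13_275 p13_169_8
  have s : St _ β _ _ (3440 * 32) _ _ _ _ _ _ _ _ := s.ru g okX13_275 p13_170_0
  have s : St _ β _ _ (3440 * 32) _ _ _ _ _ _ _ _ := s.rnz (i := 110080) g r13_170_11 ⟨by norm_num, c⟩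
  have s : St _ β _ _ (3440 * 32) _ _ _ _ _ _ _ _ := s.rnz (i := 110080) g r13_171_0 ⟨by norm_num, c⟩
  have s : St _ β _ _ (3440 * 32) _ _ _ _ _ _ _ _ := s.rnz (i := 110080) g r13_171_1 ⟨by norm_num, c⟩
  have s : St _ β _ _ (3440 * 32) _ _ _ _ _ _ _ _ := s.rnz (i := 110080) g r13_171_2 ⟨by norm_num, c⟩
  have s : St _ β _ _ (3475 * 32) _ _ _ _ _ _ _ _ := s.ru g okX13_284 p13_171_3
  have s : St _ β _ _ (3505 * 32) _ _ _ _ _ _ _ _ := s.ru g okX13_284 p13_172_0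
  have s : St _ β _ _ (3505 * 32) _ _ _ _ _ _ _ _ := s.rnz (i := 112160) g r13_172_7 ⟨by norm_num, c⟩
  have s : St _ β _ _ (3505 * 32) _ _ _ _ _ _ _ _ := s.rnz (i := 112160) g r13_172_8 ⟨by norm_num, c⟩
  have s : St _ β _ _ (3505 * 32) _ _ _ _ _ _ _ _ := s.rnz (i := 112160) g r13_172_9 ⟨by norm_num, c⟩
  have s : St _ β _ _ (3505 * 32) _ _ _ _ _ _ _ _ := s.rnz (i := 112160) g r13_172_10 ⟨by norm_num, c⟩
  have s : St _ β _ _ (3505 * 32) _ _ _ _ _ _ _ _ := s.rnz (i := 112160) g r13_173_0 ⟨by norm_num, c⟩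
  have s : St _ β _ _ (3555 * 32) _ _ _ _ _ _ _ _ := s.ru g okX13_294 p13_173_1
  have s : St _ β _ _ (3555 * 32) _ _ _ _ _ _ _ _ := s.rnz (i := 113760) g r13_173_12 ⟨by norm_num, c⟩
  have s : St _ β _ _ (3555 * 32) _ _ _ _ _ _ _ _ := s.rnz (i := 113760) g r13_174_0 ⟨by norm_num, c⟩
  have s : St _ β _ _ (3555 * 32) _ _ _ _ _ _ _ _ := s.rnz (i := 113760) g r13_174_1 ⟨by norm_num, c⟩
  have s : St _ β _ _ (3555 * 32) _ _ _ _ _ _ _ _ := s.rnz (i := 113760) g r13_174_2 ⟨by norm_num, c⟩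
  have s : St _ β _ _ (3556 * 32) _ _ _ _ _ _ _ _ := s.ru g okX13_302 p13_174_3
  have s : St _ β _ _ (3556 * 32) _ _ _ _ _ _ _ _ := s.rnz (i := 113792) g r13_174_4 ⟨by norm_num, c⟩
  have s : St _ β _ _ (3588 * 32) _ _ _ _ _ _ _ _ := s.ru g okX13_302 p13_174_5
  have s : St _ β _ _ (3588 * 32) _ _ _ _ _ _ _ _ := s.rnz (i := 114816) g r13_174_12 ⟨by norm_num, c⟩
  have s : St _ β _ _ (3588 * 32) _ _ _ _ _ _ _ _ := s.rnz (i := 114816) g r13_175_0 ⟨by norm_num, c⟩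
  have s : St _ β _ _ (3588 * 32) _ _ _ _ _ _ _ _ := s.rnz (i := 114816) g r13_175_1 ⟨by norm_num, c⟩
  have s : St _ β _ _ (3588 * 32) _ _ _ _ _ _ _ _ := s.rnz (i := 114816) g r13_175_2 ⟨by norm_num, c⟩
  have s : St _ β _ _ (3611 * 32) _ _ _ _ _ _ _ _ := s.ru g okX13_308 p13_175_3
  have s : St _ β _ _ (3611 * 32) _ _ _ _ _ _ _ _ := s.rnz (i := 115552) g r13_175_8 ⟨by norm_num, c⟩
  have s : St _ β _ _ (3611 * 32) _ _ _ _ _ _ _ _ := s.rnz (i := 115552) g r13_175_9 ⟨by norm_num, c⟩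
  have s : St _ β _ _ (3611 * 32) _ _ _ _ _ _ _ _ := s.rnz (i := 115552) g r13_176_0 ⟨by norm_num, c⟩
  have s : St _ β _ _ (3618 * 32) _ _ _ _ _ _ _ _ := s.ru g okX13_313 p13_176_1
  have s : St _ β _ _ (3618 * 32) _ _ _ _ _ _ _ _ := s.rnz (i := 115776) g r13_176_3 ⟨by norm_num, c⟩
  have s : St _ β _ _ (3620 * 32) _ _ _ _ _ _ _ _ := s.ru g okX13_316 p13_176_4
  have s : St _ β _ _ (3620 * 32) _ _ _ _ _ _ _ _ := s.rnz (i := 115840) g r13_176_5 ⟨by norm_num, c⟩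
  exact s.out g (by decide +kernel)

theorem tab20 : tab FA FB D20 R20 4 = true := by decide +kernel

theorem seg20 : Seg ⟨FA, FB, FT, 60608, 10033, 38173, geo_ok⟩ 10033 9889 8400 10034 := fun _ E β ht h hb h' => by
  letI : Geo := ⟨FA, FB, FT, 60608, 10033, 38173, geo_ok⟩
  have c : rd R20 35 = 9889 := by decide +kernel
  have g := tc_re (E := E) tab20 (ro := 10033) (C0 := 9889) (by decide +kernel) ht hb
  have s : St (E.re tab20) β 9889 H20_0 (0 * 32) _ X20_0 _ _ _ _ _ _ :=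
    g.start H20_0 9889 1 (by decide +kernel) h h'
  have s : St _ β _ _ (38 * 32) _ _ _ _ _ _ _ _ := s.ru g okX20_0 p20_0_0
  have s : St _ β _ _ (38 * 32) _ _ _ _ _ _ _ _ := s.rnz (i := 1216) g r20_0_5 ⟨by norm_num, c⟩
  have s : St _ β _ _ (73 * 32) _ _ _ _ _ _ _ _ := s.ru g okX20_0 p20_0_6
  have s : St _ β _ _ (73 * 32) _ _ _ _ _ _ _ _ := s.rnz (i := 2336) g r20_0_12 ⟨by norm_num, c⟩
  have s : St _ β _ _ (99 * 32) _ _ _ _ _ _ _ _ := s.ru g okX20_0 p20_0_13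
  have s : St _ β _ _ (103 * 32) _ _ _ _ _ _ _ _ := s.ru g okX20_0 p20_1_0
  have s : St _ β _ _ (103 * 32) _ _ _ _ _ _ _ _ := s.rnz (i := 3296) g r20_1_1 ⟨by norm_num, c⟩
  have s : St _ β _ _ (138 * 32) _ _ _ _ _ _ _ _ := s.ru g okX20_3 p20_1_2
  have s : St _ β _ _ (138 * 32) _ _ _ _ _ _ _ _ := s.rnz (i := 4416) g r20_1_7 ⟨by norm_num, c⟩
  have s : St _ β _ _ (138 * 32) _ _ _ _ _ _ _ _ := s.rnz (i := 4416) g r20_1_8 ⟨by norm_num, c⟩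
  have s : St _ β _ _ (158 * 32) _ _ _ _ _ _ _ _ := s.ru g okX20_7 p20_1_9
  have s : St _ β _ _ (167 * 32) _ _ _ _ _ _ _ _ := s.ru g okX20_7 p20_2_0
  have s : St _ β _ _ (167 * 32) _ _ _ _ _ _ _ _ := s.rnz (i := 5344) g r20_2_2 ⟨by norm_num, c⟩
  have s : St _ β _ _ (167 * 32) _ _ _ _ _ _ _ _ := s.rnz (i := 5344) g r20_2_3 ⟨by norm_num, c⟩
  have s : St _ β _ _ (184 * 32) _ _ _ _ _ _ _ _ := s.ru g okX20_9 p20_2_4
  have s : St _ β _ _ (184 * 32) _ _ _ _ _ _ _ _ := s.rnz (i := 5888) g r20_2_7 ⟨by norm_num, c⟩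
  have s : St _ β _ _ (197 * 32) _ _ _ _ _ _ _ _ := s.ru g okX20_12 p20_2_8
  have s : St _ β _ _ (197 * 32) _ _ _ _ _ _ _ _ := s.rnz (i := 6304) g r20_2_10 ⟨by norm_num, c⟩
  have s : St _ β _ _ (206 * 32) _ _ _ _ _ _ _ _ := s.ru g okX20_14 p20_2_11
  have s : St _ β _ _ (206 * 32) _ _ _ _ _ _ _ _ := s.rnz (i := 6592) g r20_2_13 ⟨by norm_num, c⟩
  have s : St _ β _ _ (208 * 32) _ _ _ _ _ _ _ _ := s.ru g okX20_16 p20_3_0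
  have s : St _ β _ _ (208 * 32) _ _ _ _ _ _ _ _ := s.rnz (i := 6656) g r20_3_1 ⟨by norm_num, c⟩
  have s : St _ β _ _ (210 * 32) _ _ _ _ _ _ _ _ := s.ru g okX20_18 p20_3_2
  have s : St _ β _ _ (210 * 32) _ _ _ _ _ _ _ _ := s.rnz (i := 6720) g r20_3_3 ⟨by norm_num, c⟩
  have s : St _ β _ _ (211 * 32) _ _ _ _ _ _ _ _ := s.ru g okX20_18 p20_3_4
  have s : St _ β _ _ (211 * 32) _ _ _ _ _ _ _ _ := s.rnz (i := 6752) g r20_3_5 ⟨by norm_num, c⟩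
  have s : St _ β _ _ (224 * 32) _ _ _ _ _ _ _ _ := s.ru g okX20_18 p20_3_6
  have s : St _ β _ _ (224 * 32) _ _ _ _ _ _ _ _ := s.rnz (i := 7168) g r20_3_9 ⟨by norm_num, c⟩
  have s : St _ β _ _ (228 * 32) _ _ _ _ _ _ _ _ := s.ru g okX20_21 p20_3_10
  have s : St _ β _ _ (228 * 32) _ _ _ _ _ _ _ _ := s.rnz (i := 7296) g r20_3_11 ⟨by norm_num, c⟩
  have s : St _ β _ _ (244 * 32) _ _ _ _ _ _ _ _ := s.ru g okX20_21 p20_3_12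
  have s : St _ β _ _ (244 * 32) _ _ _ _ _ _ _ _ := s.rnz (i := 7808) g r20_3_15 ⟨by norm_num, c⟩
  have s : St _ β _ _ (244 * 32) _ _ _ _ _ _ _ _ := s.rnz (i := 7808) g r20_4_0 ⟨by norm_num, c⟩
  have s : St _ β _ _ (249 * 32) _ _ _ _ _ _ _ _ := s.ru g okX20_24 p20_4_1
  have s : St _ β _ _ (249 * 32) _ _ _ _ _ _ _ _ := s.rnz (i := 7968) g r20_4_2 ⟨by norm_num, c⟩
  have s : St _ β _ _ (254 * 32) _ _ _ _ _ _ _ _ := s.ru g okX20_24 p20_4_3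
  have s : St _ β _ _ (254 * 32) _ _ _ _ _ _ _ _ := s.rnz (i := 8128) g r20_4_4 ⟨by norm_num, c⟩
  have s : St _ β _ _ (255 * 32) _ _ _ _ _ _ _ _ := s.ru g okX20_24 p20_4_5
  have s : St _ β _ _ (255 * 32) _ _ _ _ _ _ _ _ := s.rnz (i := 8160) g r20_4_6 ⟨by norm_num, c⟩
  have s : St _ β _ _ (256 * 32) _ _ _ _ _ _ _ _ := s.ru g okX20_24 p20_4_7
  have s : St _ β _ _ (256 * 32) _ _ _ _ _ _ _ _ := s.rnz (i := 8192) g r20_4_8 ⟨by norm_num, c⟩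
  have s : St _ β _ _ (264 * 32) _ _ _ _ _ _ _ _ := s.ru g okX20_24 p20_4_9
  have s : St _ β _ _ (264 * 32) _ _ _ _ _ _ _ _ := s.rnz (i := 8448) g r20_4_11 ⟨by norm_num, c⟩
  have s : St _ β _ _ (264 * 32) _ _ _ _ _ _ _ _ := s.rnz (i := 8448) g r20_4_12 ⟨by norm_num, c⟩
  have s : St _ β _ _ (266 * 32) _ _ _ _ _ _ _ _ := s.ru g okX20_30 p20_4_13
  have s : St _ β _ _ (266 * 32) _ _ _ _ _ _ _ _ := s.rnz (i := 8512) g r20_4_14 ⟨by norm_num, c⟩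
  have s : St _ β _ _ (268 * 32) _ _ _ _ _ _ _ _ := s.ru g okX20_31 p20_4_15
  have s : St _ β _ _ (268 * 32) _ _ _ _ _ _ _ _ := s.rnz (i := 8576) g r20_4_16 ⟨by norm_num, c⟩
  have s : St _ β _ _ (269 * 32) _ _ _ _ _ _ _ _ := s.ru g okX20_31 p20_4_17
  have s : St _ β _ _ (269 * 32) _ _ _ _ _ _ _ _ := s.rnz (i := 8608) g r20_4_18 ⟨by norm_num, c⟩
  have s : St _ β _ _ (276 * 32) _ _ _ _ _ _ _ _ := s.ru g okX20_31 p20_4_19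
  have s : St _ β _ _ (279 * 32) _ _ _ _ _ _ _ _ := s.ru g okX20_31 p20_5_0
  have s : St _ β _ _ (279 * 32) _ _ _ _ _ _ _ _ := s.rnz (i := 8928) g r20_5_1 ⟨by norm_num, c⟩
  have s : St _ β _ _ (279 * 32) _ _ _ _ _ _ _ _ := s.rnz (i := 8928) g r20_5_2 ⟨by norm_num, c⟩
  have s : St _ β _ _ (282 * 32) _ _ _ _ _ _ _ _ := s.ru g okX20_35 p20_5_3
  have s : St _ β _ _ (282 * 32) _ _ _ _ _ _ _ _ := s.rnz (i := 9024) g r20_5_4 ⟨by norm_num, c⟩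
  have s : St _ β _ _ (283 * 32) _ _ _ _ _ _ _ _ := s.ru g okX20_35 p20_5_5
  have s : St _ β _ _ (283 * 32) _ _ _ _ _ _ _ _ := s.rnz (i := 9056) g r20_5_6 ⟨by norm_num, c⟩
  have s : St _ β _ _ (289 * 32) _ _ _ _ _ _ _ _ := s.ru g okX20_35 p20_5_7
  have s : St _ β _ _ (289 * 32) _ _ _ _ _ _ _ _ := s.rnz (i := 9248) g r20_5_8 ⟨by norm_num, c⟩
  have s : St _ β _ _ (289 * 32) _ _ _ _ _ _ _ _ := s.rnz (i := 9248) g r20_5_9 ⟨by norm_num, c⟩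
  have s : St _ β _ _ (292 * 32) _ _ _ _ _ _ _ _ := s.ru g okX20_39 p20_5_10
  have s : St _ β _ _ (292 * 32) _ _ _ _ _ _ _ _ := s.rnz (i := 9344) g r20_5_11 ⟨by norm_num, c⟩
  have s : St _ β _ _ (293 * 32) _ _ _ _ _ _ _ _ := s.ru g okX20_40 p20_5_12
  have s : St _ β _ _ (293 * 32) _ _ _ _ _ _ _ _ := s.rnz (i := 9376) g r20_5_13 ⟨by norm_num, c⟩
  have s : St _ β _ _ (296 * 32) _ _ _ _ _ _ _ _ := s.ru g okX20_40 p20_5_14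
  have s : St _ β _ _ (296 * 32) _ _ _ _ _ _ _ _ := s.rnz (i := 9472) g r20_5_15 ⟨by norm_num, c⟩
  have s : St _ β _ _ (296 * 32) _ _ _ _ _ _ _ _ := s.rnz (i := 9472) g r20_6_0 ⟨by norm_num, c⟩
  have s : St _ β _ _ (297 * 32) _ _ _ _ _ _ _ _ := s.ru g okX20_44 p20_6_1
  have s : St _ β _ _ (297 * 32) _ _ _ _ _ _ _ _ := s.rnz (i := 9504) g r20_6_2 ⟨by norm_num, c⟩
  have s : St _ β _ _ (298 * 32) _ _ _ _ _ _ _ _ := s.ru g okX20_44 p20_6_3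
  have s : St _ β _ _ (298 * 32) _ _ _ _ _ _ _ _ := s.rnz (i := 9536) g r20_6_4 ⟨by norm_num, c⟩
  have s : St _ β _ _ (301 * 32) _ _ _ _ _ _ _ _ := s.ru g okX20_44 p20_6_5
  have s : St _ β _ _ (301 * 32) _ _ _ _ _ _ _ _ := s.rnz (i := 9632) g r20_6_6 ⟨by norm_num, c⟩
  have s : St _ β _ _ (302 * 32) _ _ _ _ _ _ _ _ := s.ru g okX20_48 p20_6_7
  have s : St _ β _ _ (302 * 32) _ _ _ _ _ _ _ _ := s.rnz (i := 9664) g r20_6_8 ⟨by norm_num, c⟩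
  have s : St _ β _ _ (303 * 32) _ _ _ _ _ _ _ _ := s.ru g okX20_48 p20_6_9
  have s : St _ β _ _ (303 * 32) _ _ _ _ _ _ _ _ := s.rnz (i := 9696) g r20_6_10 ⟨by norm_num, c⟩
  have s : St _ β _ _ (304 * 32) _ _ _ _ _ _ _ _ := s.ru g okX20_48 p20_6_11
  have s : St _ β _ _ (304 * 32) _ _ _ _ _ _ _ _ := s.rnz (i := 9728) g r20_6_12 ⟨by norm_num, c⟩
  have s : St _ β _ _ (305 * 32) _ _ _ _ _ _ _ _ := s.ru g okX20_52 p20_6_13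
  have s : St _ β _ _ (305 * 32) _ _ _ _ _ _ _ _ := s.rnz (i := 9760) g r20_6_14 ⟨by norm_num, c⟩
  have s : St _ β _ _ (306 * 32) _ _ _ _ _ _ _ _ := s.ru g okX20_52 p20_6_15
  have s : St _ β _ _ (306 * 32) _ _ _ _ _ _ _ _ := s.rnz (i := 9792) g r20_6_16 ⟨by norm_num, c⟩
  have s : St _ β _ _ (307 * 32) _ _ _ _ _ _ _ _ := s.ru g okX20_52 p20_6_17
  have s : St _ β _ _ (307 * 32) _ _ _ _ _ _ _ _ := s.rnz (i := 9824) g r20_6_18 ⟨by norm_num, c⟩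
  have s : St _ β _ _ (310 * 32) _ _ _ _ _ _ _ _ := s.ru g okX20_56 p20_6_19
  have s : St _ β _ _ (310 * 32) _ _ _ _ _ _ _ _ := s.rnz (i := 9920) g r20_6_20 ⟨by norm_num, c⟩
  exact s.out g (by decide +kernel)

theorem many : Many2 ⟨FA, FB, FT, 60608, 10033, 38173, geo_ok⟩ 10033 9889 :=
  (((seg4.app seg5 (by norm_num)).app seg13 (by norm_num)).app seg20 (by norm_num)).many (by norm_num)

end

end Pool.Agent.MP_1037db_co.Q.A
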